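import Pool.Agent.W798.KF.Stm

/-! Part KP of project KF (helper798). -/

set_option autoImplicit false

open Finset
open scoped Pointwise

namespace Pool.Agent.W741.KF

open Pool.Agent.W798.SP Pool.Agent.W798.KF

theorem sm_ne (A : Finset ℝ) (hA : A.Nonempty) : ∀ i, (sm A i).Nonempty
  | 0 => hA
  | i + 1 => hA.add (sm_ne A hA i)

theorem pr_ne (A : Finset ℝ) (hA : A.Nonempty) : ∀ i, (pr A i).Nonempty
  | 0 => hA
  | i + 1 => hA.mul (pr_ne A hA i)

theorem pr_pos (A : Finset ℝ) (hA : ∀ x ∈ A, 0 < x) : ∀ i, ∀ x ∈ pr A i, 0 < x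
  | 0 => hA
  | i + 1 => by
    intro x hx
    obtain ⟨a, ha, b, hb, rfl⟩ := Finset.mem_mul.1 (show x ∈ A * pr A i from hx)
    exact mul_pos (hA a ha) (pr_pos A hA i b hb)

theorem natlog_le (N : ℕ) (hN : 1 ≤ N) : (Nat.log 2 N : ℝ) ≤ 2 * Real.log N := by
  have h1 : 2 ^ Nat.log 2 N ≤ N := Nat.pow_log_le_self 2 (by omega)
  have h2 : ((2 : ℝ)) ^ Nat.log 2 N ≤ N := by exact_mod_cast h1
  have h3 := Real.log_le_log (by positivity) h2
  rw [Real.log_pow] at h3
  have h4 : (1 : ℝ) / 2 < Real.log 2 := by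
    have := Real.log_two_gt_d9
    linarith
  have h5 : (0 : ℝ) ≤ (Nat.log 2 N : ℝ) := Nat.cast_nonneg _
  nlinarith

/-- `log (K (log₂ M + 1)) ≤ log K + η (6 log N + 1) - log η` if `M ≤ N^3`. -/
theorem lg_le {η : ℝ} (hη : 0 < η) {N M : ℕ} (hN : 1 ≤ N) (hM : 1 ≤ M) (hMN : M ≤ N ^ 3)
    (K : ℝ) (hK : 0 < K) :
    Real.log (K * ((Nat.log 2 M : ℝ) + 1)) ≤
      Real.log K + (η * (6 * Real.log N + 1) - Real.log η) := by
  have h0 : (0 : ℝ) ≤ (Nat.log 2 M : ℝ) := Nat.cast_nonneg _
  have h1 := Real.log_le_sub_one_of_pos (x := η * ((Nat.log 2 M : ℝ) + 1)) (by positivity)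
  rw [Real.log_mul hη.ne' (by positivity)] at h1
  have h2 := natlog_le M hM
  have h3 : Real.log M ≤ 3 * Real.log N := by
    have h4 : (M : ℝ) ≤ (N : ℝ) ^ 3 := by exact_mod_cast hMN
    have h5 := Real.log_le_log (by exact_mod_cast hM) h4
    rw [Real.log_pow] at h5
    push_cast at h5
    exact h5
  have h6 : η * ((Nat.log 2 M : ℝ) + 1) ≤ η * (6 * Real.log N + 1) :=
    mul_le_mul_of_nonneg_left (by linarith) hη.le
  rw [Real.log_mul hK.ne' (by positivity)]
  linarith

theorem tKP (hKST : S_KST) (hSS : S_SS) (hLI : S_LI) (hPO2 : S_PO2) : S_KP := by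
  intro j δ hδ
  obtain ⟨C, hC0, hC⟩ := hLI j
  obtain ⟨d, hd⟩ : ∃ d : ℝ, d = δ / (C + 1) := ⟨_, rfl⟩
  have hd0 : 0 < d := by rw [hd]; positivity
  have hCd : C * d ≤ δ := by
    rw [hd, mul_div_assoc', div_le_iff₀ (by positivity)]
    nlinarith
  obtain ⟨η, hηd⟩ : ∃ η : ℝ, η = d / 66 := ⟨_, rfl⟩
  have hη : 0 < η := by rw [hηd]; positivity
  obtain ⟨c', hc'0, hc'⟩ := hPO2 d hd0
  obtain ⟨C0, hC0d⟩ : ∃ C0 : ℝ, C0 = |6 * Real.log 4 + 5 * Real.log 4097 +
    11 * (η - Real.log η)| + |Real.log c'| := ⟨_, rfl⟩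
  have hC00 : 0 ≤ C0 := by rw [hC0d]; positivity
  refine ⟨Real.exp (-(C * (Real.log 512 + C0))), Real.exp_pos _, ?_⟩
  intro A hA hpos
  have hN1 : 1 ≤ A.card := hA.card_pos
  have hNpos : (0 : ℝ) < A.card := by exact_mod_cast hN1
  have hn0 : 0 ≤ Real.log A.card := Real.log_nonneg (by exact_mod_cast hN1)
  have hsm : ∀ i, (0 : ℝ) < ((sm A i).card : ℝ) := fun i => by
    exact_mod_cast (sm_ne A hA i).card_pos
  have hpr : ∀ i, (0 : ℝ) < ((pr A i).card : ℝ) := fun i => by
    exact_mod_cast (pr_ne A hA i).card_pos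
  have hc1 : ∀ i i' : ℕ, 3 * Real.log A.card + Real.log ((sm A i).card : ℝ) +
      Real.log ((pr A i').card : ℝ) ≤ Real.log 512 + 2 * Real.log ((sm A (i + 1)).card : ℝ) +
        2 * Real.log ((pr A (i' + 1)).card : ℝ) := by
    intro i i'
    have h := hKST A (sm A i) (pr A i') hpos (fun g hg => (pr_pos A hpos i' g hg).ne')
    have h' : (A.card : ℝ) ^ 3 * ((sm A i).card : ℝ) * ((pr A i').card : ℝ) ≤
        512 * ((sm A (i + 1)).card : ℝ) ^ 2 * ((pr A (i' + 1)).card : ℝ) ^ 2 := by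
      exact_mod_cast h
    have hs := hsm i
    have hp := hpr i'
    have hs' := hsm (i + 1)
    have hp' := hpr (i' + 1)
    have h2 := Real.log_le_log (by positivity) h'
    rw [Real.log_mul (by positivity) (by positivity), Real.log_mul (by positivity) (by positivity),
      Real.log_mul (by positivity) (by positivity), Real.log_mul (by positivity) (by positivity),
      Real.log_pow, Real.log_pow, Real.log_pow] at h2
    push_cast at h2
    linarith
  have hs1 := hsm 1
  have hs2 := hsm 2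
  have hp1 := hpr 1
  have hs2N : (sm A 2).card ≤ A.card ^ 3 := by
    have h1 : (sm A 2).card ≤ A.card * (sm A 1).card := Finset.card_add_le
    have h2 : (sm A 1).card ≤ A.card * A.card := Finset.card_add_le
    calc (sm A 2).card ≤ A.card * (sm A 1).card := h1
      _ ≤ A.card * (A.card * A.card) := Nat.mul_le_mul_left _ h2
      _ = A.card ^ 3 := by ring
  have hc2 : 19 * Real.log A.card + 5 * Real.log ((sm A 1).card : ℝ) ≤ (d * Real.log A.card + C0) +
      9 * Real.log ((pr A 1).card : ℝ) + 10 * Real.log ((sm A 2).card : ℝ) := by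
    have h := hSS A (sm A 1) hA (sm_ne A hA 1) hpos
    have h' : (A.card : ℝ) ^ 19 * ((sm A 1).card : ℝ) ^ 5 ≤
        (4 * ((Nat.log 2 A.card : ℝ) + 1)) ^ 6 *
          (4097 * ((Nat.log 2 (sm A 2).card : ℝ) + 1)) ^ 5 * ((pr A 1).card : ℝ) ^ 9 *
            ((sm A 2).card : ℝ) ^ 10 := by
      exact_mod_cast h
    have h2 := Real.log_le_log (by positivity) h'
    have hl1 : (0 : ℝ) ≤ (Nat.log 2 A.card : ℝ) := Nat.cast_nonneg _
    have hl2 : (0 : ℝ) ≤ (Nat.log 2 (sm A 2).card : ℝ) := Nat.cast_nonneg _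
    rw [Real.log_mul (by positivity) (by positivity), Real.log_mul (by positivity) (by positivity),
      Real.log_mul (by positivity) (by positivity), Real.log_mul (by positivity) (by positivity),
      Real.log_pow, Real.log_pow, Real.log_pow, Real.log_pow, Real.log_pow, Real.log_pow] at h2
    push_cast at h2
    have h3 := lg_le hη hN1 hN1 (Nat.le_self_pow (by norm_num) A.card) 4 (by norm_num)
    have h4 := lg_le hη hN1 (sm_ne A hA 2).card_pos hs2N 4097 (by norm_num)
    have h5 : 66 * (η * Real.log A.card) = d * Real.log A.card := by rw [hηd]; ring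
    have h6 : 6 * Real.log 4 + 5 * Real.log 4097 + 11 * (η - Real.log η) ≤ C0 := by
      rw [hC0d]
      have := le_abs_self (6 * Real.log 4 + 5 * Real.log 4097 + 11 * (η - Real.log η))
      have := abs_nonneg (Real.log c')
      linarith
    linarith
  have hc3 : 226 * Real.log A.card ≤ (d * Real.log A.card + C0) +
      103 * Real.log ((sm A 1).card : ℝ) + 66 * Real.log ((pr A 1).card : ℝ) := by
    have h := hc' A hA hpos
    have h' : c' * (A.card : ℝ) ^ (226 - d) ≤ ((sm A 1).card : ℝ) ^ 103 *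
        ((pr A 1).card : ℝ) ^ 66 := h
    have hpw : (0 : ℝ) < (A.card : ℝ) ^ (226 - d) := Real.rpow_pos_of_pos hNpos _
    have h2 := Real.log_le_log (by positivity) h'
    rw [Real.log_mul (by positivity) (by positivity), Real.log_mul (by positivity) (by positivity),
      Real.log_rpow hNpos, Real.log_pow, Real.log_pow] at h2
    push_cast at h2
    have h6 : -Real.log c' ≤ C0 := by
      rw [hC0d]
      have := neg_abs_le (Real.log c')
      have := abs_nonneg (6 * Real.log 4 + 5 * Real.log 4097 + 11 * (η - Real.log η))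
      linarith
    linarith
  have hE0 : 0 ≤ d * Real.log A.card + C0 := by positivity
  have hfin := hC (fun i => Real.log ((sm A i).card : ℝ)) (fun i => Real.log ((pr A i).card : ℝ))
    (Real.log A.card) (Real.log 512) (d * Real.log A.card + C0)
    (Real.log_nonneg (by norm_num)) hE0 hc1 hc2 hc3
  have hfin2 : (ex j - δ) * Real.log A.card - C * (Real.log 512 + C0) ≤
      max (Real.log ((sm A (j + 1)).card : ℝ)) (Real.log ((pr A (j + 1)).card : ℝ)) := by
    have h1 : C * d * Real.log A.card ≤ δ * Real.log A.card :=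
      mul_le_mul_of_nonneg_right hCd hn0
    linarith
  have e1 : (A.card : ℝ) ^ (ex j - δ) = Real.exp ((ex j - δ) * Real.log A.card) := by
    rw [Real.rpow_def_of_pos hNpos, mul_comm]
  rw [e1, ← Real.exp_add]
  rcases le_max_iff.1 hfin2 with h | h
  · refine le_trans ?_ (le_max_left _ _)
    rw [← Real.le_log_iff_exp_le (hsm (j + 1))]
    linarith
  · refine le_trans ?_ (le_max_right _ _)
    rw [← Real.le_log_iff_exp_le (hpr (j + 1))]
    linarith

end Pool.Agent.W741.KF
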